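import Mathlib

/-!
# Sparse zero identities have sparse explicit proofs

We work in the polynomial ring in the variables `x_j = X (j, true)` and their duals
`X (j, false)`, over a commutative ring `R`.  Cubes are functions `u : Fin n → Fin 3`; the
symbol `0` stands for the dual variable, `1` for the variable, and `2` for the constant `-1`, so
that the sum of the three factors is the axiom `x_j + x̄_j - 1`.
-/

namespace Pool.Agent.L5helper54.Static

open MvPolynomial Finset

variable {R : Type*} [CommRing R] {n : ℕ}

/-- The factor which belongs to a symbol. -/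
noncomputable def fac (R : Type*) [CommRing R] {n : ℕ} (j : Fin n) (a : Fin 3) :
    MvPolynomial (Fin n × Bool) R :=
  if a = 0 then X (j, false) else if a = 1 then X (j, true) else -1

/-- The signed monomial of a cube. -/
noncomputable def mon (R : Type*) [CommRing R] {n : ℕ} (u : Fin n → Fin 3) :
    MvPolynomial (Fin n × Bool) R :=
  ∏ j, fac R j (u j)

/-- The axiom `x_j + x̄_j - 1`. -/
noncomputable def ax (R : Type*) [CommRing R] {n : ℕ} (j : Fin n) :
    MvPolynomial (Fin n × Bool) R :=
  X (j, true) + X (j, false) - 1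

lemma fac_sum (j : Fin n) : fac R j 0 + fac R j 1 + fac R j 2 = ax R j := by
  simp [fac, ax]; ring

/-- A signed monomial. -/
def Signed (p : MvPolynomial (Fin n × Bool) R) : Prop :=
  ∃ d : (Fin n × Bool) →₀ ℕ, p = monomial d 1 ∨ p = monomial d (-1)

lemma Signed.one : Signed (1 : MvPolynomial (Fin n × Bool) R) := ⟨0, Or.inl (by simp)⟩

lemma Signed.mul {p q : MvPolynomial (Fin n × Bool) R} (hp : Signed p) (hq : Signed q) :
    Signed (p * q) := by
  obtain ⟨d, hd⟩ := hp
  obtain ⟨e, he⟩ := hq
  refine ⟨d + e, ?_⟩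
  rcases hd with rfl | rfl <;> rcases he with rfl | rfl <;> simp [monomial_mul]

lemma Signed.fac (j : Fin n) (a : Fin 3) : Signed (fac R j a) := by
  unfold Pool.Agent.L5helper54.Static.fac
  split_ifs
  · exact ⟨Finsupp.single (j, false) 1, Or.inl rfl⟩
  · exact ⟨Finsupp.single (j, true) 1, Or.inl rfl⟩
  · exact ⟨0, Or.inr (by simp)⟩

lemma Signed.prod {ι : Type*} (s : Finset ι) (f : ι → MvPolynomial (Fin n × Bool) R)
    (h : ∀ i ∈ s, Signed (f i)) : Signed (∏ i ∈ s, f i) := by
  classical
  induction s using Finset.induction_on with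
  | empty => simpa using Signed.one
  | insert i s hi ih =>
    rw [Finset.prod_insert hi]
    exact (h i (by simp)).mul (ih fun k hk => h k (by simp [hk]))

/-- The total weight of the coefficients of a polynomial. -/
def wt (ν : R → ℕ) (p : MvPolynomial (Fin n × Bool) R) : ℕ := ∑ m ∈ p.support, ν (p.coeff m)

/-- Hypotheses on a weight of coefficients. -/
structure Norm (ν : R → ℕ) : Prop where
  zero : ν 0 = 0
  neg : ∀ a, ν (-a) = ν a
  add : ∀ a b, ν (a + b) ≤ ν a + ν b

variable {ν : R → ℕ}

lemma wt_eq_of_subset (hν : Norm ν) (p : MvPolynomial (Fin n × Bool) R)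
    (S : Finset ((Fin n × Bool) →₀ ℕ)) (h : p.support ⊆ S) :
    wt ν p = ∑ m ∈ S, ν (p.coeff m) := by
  unfold wt
  refine Finset.sum_subset h fun m _ hm => ?_
  rw [notMem_support_iff.mp hm, hν.zero]

lemma wt_add (hν : Norm ν) (p q : MvPolynomial (Fin n × Bool) R) :
    wt ν (p + q) ≤ wt ν p + wt ν q := by
  classical
  rw [wt_eq_of_subset hν (p + q) (p.support ∪ q.support) support_add,
    wt_eq_of_subset hν p (p.support ∪ q.support) subset_union_left,
    wt_eq_of_subset hν q (p.support ∪ q.support) subset_union_right, ← Finset.sum_add_distrib]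
  refine Finset.sum_le_sum fun m _ => ?_
  rw [coeff_add]
  exact hν.add _ _

lemma card_support_add (p q : MvPolynomial (Fin n × Bool) R) :
    (p + q).support.card ≤ p.support.card + q.support.card := by
  classical
  exact (Finset.card_le_card support_add).trans (Finset.card_union_le _ _)

lemma wt_zero : wt ν (0 : MvPolynomial (Fin n × Bool) R) = 0 := by simp [wt]

lemma card_support_sum {ι : Type*} (s : Finset ι) (f : ι → MvPolynomial (Fin n × Bool) R) :
    (∑ i ∈ s, f i).support.card ≤ ∑ i ∈ s, (f i).support.card := by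
  classical
  induction s using Finset.induction_on with
  | empty => simp
  | insert i s hi ih =>
    rw [Finset.sum_insert hi, Finset.sum_insert hi]
    exact (card_support_add _ _).trans (by omega)

lemma wt_sum (hν : Norm ν) {ι : Type*} (s : Finset ι) (f : ι → MvPolynomial (Fin n × Bool) R) :
    wt ν (∑ i ∈ s, f i) ≤ ∑ i ∈ s, wt ν (f i) := by
  classical
  induction s using Finset.induction_on with
  | empty => simp [wt_zero]
  | insert i s hi ih =>
    rw [Finset.sum_insert hi, Finset.sum_insert hi]
    exact (wt_add hν _ _).trans (by omega)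

lemma Signed.card_C_mul {p : MvPolynomial (Fin n × Bool) R} (hp : Signed p) (a : R) :
    (C a * p).support.card ≤ 1 := by
  classical
  obtain ⟨d, rfl | rfl⟩ := hp <;> rw [C_mul_monomial] <;>
    exact (Finset.card_le_card support_monomial_subset).trans (by simp)

lemma Signed.wt_C_mul (hν : Norm ν) {p : MvPolynomial (Fin n × Bool) R} (hp : Signed p) (a : R) :
    wt ν (C a * p) ≤ ν a := by
  classical
  obtain ⟨d, rfl | rfl⟩ := hp <;> rw [C_mul_monomial]
  · rw [wt_eq_of_subset hν _ {d} support_monomial_subset]
    simp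
  · rw [wt_eq_of_subset hν _ {d} support_monomial_subset]
    simp [hν.neg]

/-- `T` has an explicit proof with at most `k` monomials of total weight at most `B`. -/
def Cert (ν : R → ℕ) (T : MvPolynomial (Fin n × Bool) R) (k B : ℕ) : Prop :=
  ∃ s : Fin n → MvPolynomial (Fin n × Bool) R, T = ∑ j, ax R j * s j ∧
    ∑ j, (s j).support.card ≤ k ∧ ∑ j, wt ν (s j) ≤ B

lemma Cert.zero (k B : ℕ) : Cert ν (0 : MvPolynomial (Fin n × Bool) R) k B :=
  ⟨0, by simp, by simp, by simp [wt_zero]⟩

lemma Cert.add (hν : Norm ν) {T T' : MvPolynomial (Fin n × Bool) R} {k k' B B' : ℕ}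
    (h : Cert ν T k B) (h' : Cert ν T' k' B') : Cert ν (T + T') (k + k') (B + B') := by
  obtain ⟨s, rfl, h1, h2⟩ := h
  obtain ⟨s', rfl, h1', h2'⟩ := h'
  refine ⟨s + s', ?_, ?_, ?_⟩
  · simp [mul_add, Finset.sum_add_distrib]
  · calc _ ≤ ∑ j, ((s j).support.card + (s' j).support.card) :=
        Finset.sum_le_sum fun j _ => card_support_add _ _
      _ ≤ _ := by rw [Finset.sum_add_distrib]; omega
  · calc _ ≤ ∑ j, (wt ν (s j) + wt ν (s' j)) :=
        Finset.sum_le_sum fun j _ => wt_add hν _ _
      _ ≤ _ := by rw [Finset.sum_add_distrib]; omega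

lemma Cert.mono {T : MvPolynomial (Fin n × Bool) R} {k k' B B' : ℕ}
    (h : Cert ν T k B) (hk : k ≤ k') (hB : B ≤ B') : Cert ν T k' B' := by
  obtain ⟨s, h0, h1, h2⟩ := h
  exact ⟨s, h0, h1.trans hk, h2.trans hB⟩

lemma Cert.single (j : Fin n) (p : MvPolynomial (Fin n × Bool) R) :
    Cert ν (ax R j * p) p.support.card (wt ν p) := by
  classical
  refine ⟨Pi.single j p, ?_, ?_, ?_⟩
  · rw [Finset.sum_eq_single j]
    · simp
    · intro b _ hb; simp [Pi.single_eq_of_ne hb]
    · simp
  · rw [Finset.sum_eq_single j]
    · simp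
    · intro b _ hb; simp [Pi.single_eq_of_ne hb]
    · simp
  · rw [Finset.sum_eq_single j]
    · simp
    · intro b _ hb; simp [Pi.single_eq_of_ne hb, wt_zero]
    · simp

/-- The vanishing condition: all products of functionals which kill the relation vanish. -/
def Vanish {ι : Type*} (s : Finset ι) (c : ι → R) (u : ι → Fin n → Fin 3) : Prop :=
  ∀ ξ : Fin n → Fin 3 → R, (∀ j, ξ j 0 + ξ j 1 + ξ j 2 = 0) →
    ∑ i ∈ s, c i * ∏ j, ξ j (u i j) = 0

lemma prod_update_split {ι : Type*} [DecidableEq ι] [Fintype ι] {M : Type*} [CommMonoid M]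
    (f : ι → Fin 3 → M) (u : ι → Fin 3) (j : ι) (a : Fin 3) :
    ∏ k, f k (Function.update u j a k) = f j a * ∏ k ∈ univ.erase j, f k (u k) := by
  rw [← Finset.mul_prod_erase univ _ (Finset.mem_univ j)]
  congr 1
  · simp
  · refine Finset.prod_congr rfl fun k hk => ?_
    rw [Function.update_of_ne (Finset.ne_of_mem_erase hk)]

lemma three_cases : ∀ a b c z : Fin 3, a ≠ b → a ≠ c → b ≠ c → z = a ∨ z = b ∨ z = c := by
  decide

/-- The vanishing condition is inherited when the symbol `c'` is eliminated. -/
lemma Vanish.child {ι : Type*} {s : Finset ι} {c : ι → R} {u : ι → Fin n → Fin 3}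
    (h : Vanish s c u) (j : Fin n) {a b c' : Fin 3} (hab : a ≠ b) (hac : a ≠ c') (hbc : b ≠ c') :
    Vanish (s.filter fun i => u i j ≠ b) (fun i => if u i j = c' then - c i else c i)
      (fun i => Function.update (u i) j a) := by
  classical
  intro ξ hξ
  -- the functional at `j`
  let δ : Fin 3 → R := fun k => if k = a then 1 else if k = c' then -1 else 0
  have hδ : δ 0 + δ 1 + δ 2 = 0 := by
    have key : ∀ a b c' : Fin 3, a ≠ b → a ≠ c' → b ≠ c' →
        ((if (0 : Fin 3) = a then (1 : R) else if (0 : Fin 3) = c' then -1 else 0) +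
          (if (1 : Fin 3) = a then (1 : R) else if (1 : Fin 3) = c' then -1 else 0) +
          (if (2 : Fin 3) = a then (1 : R) else if (2 : Fin 3) = c' then -1 else 0) = 0) := by
      intro a b c'
      fin_cases a <;> fin_cases b <;> fin_cases c' <;> simp
    exact key a b c' hab hac hbc
  have h1 := h (Function.update ξ j δ) (by
    intro k
    by_cases hk : k = j
    · subst hk; simpa using hδ
    · simpa [Function.update_of_ne hk] using hξ k)
  have e1 : ∀ i, ∏ k, (Function.update ξ j δ) k (u i k) =
      δ (u i j) * ∏ k ∈ univ.erase j, ξ k (u i k) := by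
    intro i
    rw [← Finset.mul_prod_erase univ _ (Finset.mem_univ j)]
    congr 1
    · simp
    · refine Finset.prod_congr rfl fun k hk => ?_
      rw [Function.update_of_ne (Finset.ne_of_mem_erase hk)]
  simp_rw [e1] at h1
  simp_rw [prod_update_split (fun k => ξ k)]
  rw [Finset.sum_filter]
  have e2 : ∀ i ∈ s, (if u i j ≠ b then (if u i j = c' then - c i else c i) *
      (ξ j a * ∏ k ∈ univ.erase j, ξ k (u i k)) else 0) =
      ξ j a * (c i * (δ (u i j) * ∏ k ∈ univ.erase j, ξ k (u i k))) := by
    intro i _
    have hcases := three_cases a b c' (u i j) hab hac hbc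
    rcases hcases with hz | hz | hz
    · rw [if_pos (by rw [hz]; exact hab), if_neg (by rw [hz]; exact hac)]
      simp only [hz, δ, if_pos]
      ring
    · rw [if_neg (by simp [hz])]
      simp only [hz, δ]
      rw [if_neg (Ne.symm hab), if_neg hbc]
      ring
    · rw [if_pos (by rw [hz]; exact (Ne.symm hbc)), if_pos hz]
      simp only [hz, δ]
      rw [if_neg (Ne.symm hac)]
      simp
      ring
  rw [Finset.sum_congr rfl e2, ← Finset.mul_sum, h1, mul_zero]

lemma fac_sum_perm (j : Fin n) {a b c : Fin 3} (hab : a ≠ b) (hac : a ≠ c) (hbc : b ≠ c) :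
    fac R j a + fac R j b + fac R j c = ax R j := by
  have key : ∀ a b c : Fin 3, a ≠ b → a ≠ c → b ≠ c →
      fac R j a + fac R j b + fac R j c = fac R j 0 + fac R j 1 + fac R j 2 := by
    intro a b c
    fin_cases a <;> fin_cases b <;> fin_cases c <;> simp <;> ring
  rw [key a b c hab hac hbc, fac_sum]

/-- The elimination identity. -/
lemma elim_identity {ι : Type*} (s : Finset ι) (c : ι → R) (u : ι → Fin n → Fin 3)
    (j : Fin n) {a b c' : Fin 3} (hab : a ≠ b) (hac : a ≠ c') (hbc : b ≠ c') :
    ∑ i ∈ s, C (c i) * mon R (u i) =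
      (∑ i ∈ s.filter (fun i => u i j ≠ b),
        C (if u i j = c' then - c i else c i) * mon R (Function.update (u i) j a)) +
      (∑ i ∈ s.filter (fun i => u i j ≠ a),
        C (if u i j = c' then - c i else c i) * mon R (Function.update (u i) j b)) +
      ax R j * ∑ i ∈ s.filter (fun i => u i j = c'),
        C (c i) * ∏ k ∈ univ.erase j, fac R k (u i k) := by
  classical
  rw [Finset.mul_sum, Finset.sum_filter, Finset.sum_filter, Finset.sum_filter,
    ← Finset.sum_add_distrib, ← Finset.sum_add_distrib]
  refine Finset.sum_congr rfl fun i _ => ?_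
  have e0 : mon R (u i) = fac R j (u i j) * ∏ k ∈ univ.erase j, fac R k (u i k) := by
    unfold mon
    rw [← Finset.mul_prod_erase univ _ (Finset.mem_univ j)]
  have e1 : ∀ a, mon R (Function.update (u i) j a) =
      fac R j a * ∏ k ∈ univ.erase j, fac R k (u i k) := by
    intro a
    unfold mon
    exact prod_update_split (fun k => fac R k) (u i) j a
  rw [e0, e1, e1]
  rcases three_cases a b c' (u i j) hab hac hbc with hz | hz | hz
  · simp [hz, hab, hac]
  · simp [hz, Ne.symm hab, hbc]
  · simp only [hz, if_pos, Ne.symm hac, Ne.symm hbc, ne_eq, not_false_eq_true]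
    rw [← fac_sum_perm j hab hac hbc]
    simp only [map_neg]
    ring

/-- The combinatorial inequality behind the quadratic bound. -/
lemma arith {x y z : ℕ} (hx : 1 ≤ x) (hy : 1 ≤ y) (hzx : z ≤ x) (hzy : z ≤ y) :
    (x + z) ^ 2 + (y + z) ^ 2 + z ≤ (x + y + z) ^ 2 := by
  nlinarith [Nat.mul_le_mul hzx hzy, Nat.mul_le_mul hx hy, Nat.mul_le_mul hzx hy]

/-- **Sparse zero identities have sparse explicit proofs**: a combination of `N` cubes which
vanishes has an explicit proof with at most `N ^ 2` monomials. -/
theorem core (hν : Norm ν) {ι : Type*} : ∀ (N : ℕ) (s : Finset ι) (c : ι → R)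
    (u : ι → Fin n → Fin 3) (B : ℕ), s.card = N → Vanish s c u → ∑ i ∈ s, ν (c i) ≤ B →
      Cert ν (∑ i ∈ s, C (c i) * mon R (u i)) (N ^ 2) (N ^ 2 * B) := by
  classical
  intro N
  induction N using Nat.strong_induction_on with
  | _ N ih =>
    intro s c u B hs hv hB
    by_cases hconst : ∀ j, ∀ i ∈ s, ∀ i' ∈ s, u i j = u i' j
    · -- all cubes are equal
      rcases s.eq_empty_or_nonempty with rfl | ⟨i0, hi0⟩
      · simpa using Cert.zero _ _
      · have hu : ∀ i ∈ s, u i = u i0 := fun i hi => funext fun j => hconst j i hi i0 hi0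
        have hsum : ∑ i ∈ s, c i = 0 := by
          have key : ∀ z : Fin 3, ∃ δ : Fin 3 → R, δ 0 + δ 1 + δ 2 = 0 ∧ δ z = 1 := by
            intro z
            fin_cases z
            · exact ⟨![1, -1, 0], by simp⟩
            · exact ⟨![-1, 1, 0], by simp⟩
            · exact ⟨![-1, 0, 1], by simp⟩
          choose δ hδ hδ1 using key
          have := hv (fun j => δ (u i0 j)) (fun j => hδ _)
          rw [← this]
          refine Finset.sum_congr rfl fun i hi => ?_
          rw [hu i hi]
          simp [hδ1]
        have : ∑ i ∈ s, C (c i) * mon R (u i) = (0 : MvPolynomial (Fin n × Bool) R) := by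
          rw [Finset.sum_congr rfl fun i hi => by rw [hu i hi], ← Finset.sum_mul, ← map_sum, hsum]
          simp
        rw [this]
        exact Cert.zero _ _
    · push Not at hconst
      obtain ⟨j, i1, hi1, i2, hi2, hne⟩ := hconst
      -- the numbers of occurrences
      let cnt : Fin 3 → ℕ := fun a => (s.filter fun i => u i j = a).card
      have hpos : ∀ i ∈ s, 1 ≤ cnt (u i j) := by
        intro i hi
        exact Finset.card_pos.mpr ⟨i, by simp [hi]⟩
      have htot : cnt 0 + cnt 1 + cnt 2 = s.card := by
        have h := Finset.card_eq_sum_card_fiberwise (s := s) (t := (univ : Finset (Fin 3)))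
          (f := fun i => u i j) (by intro i _; simp)
        rw [h, Fin.sum_univ_three]
      -- the least frequent symbol
      have hperm : ∃ a b c' : Fin 3, a ≠ b ∧ a ≠ c' ∧ b ≠ c' ∧ 1 ≤ cnt a ∧ 1 ≤ cnt b ∧
          cnt c' ≤ cnt a ∧ cnt c' ≤ cnt b ∧ cnt a + cnt b + cnt c' = s.card := by
        have h1 := hpos i1 hi1
        have h2 := hpos i2 hi2
        generalize u i1 j = z1 at h1 hne
        generalize u i2 j = z2 at h2 hne
        clear_value cnt
        have hmin : (cnt 0 ≤ cnt 1 ∧ cnt 0 ≤ cnt 2) ∨ (cnt 1 ≤ cnt 0 ∧ cnt 1 ≤ cnt 2) ∨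
            (cnt 2 ≤ cnt 0 ∧ cnt 2 ≤ cnt 1) := by omega
        rcases hmin with h | h | h
        · refine ⟨1, 2, 0, by decide, by decide, by decide, ?_, ?_, h.1, h.2, by omega⟩ <;>
            fin_cases z1 <;> fin_cases z2 <;> simp at h1 h2 hne ⊢ <;> omega
        · refine ⟨0, 2, 1, by decide, by decide, by decide, ?_, ?_, h.1, h.2, by omega⟩ <;>
            fin_cases z1 <;> fin_cases z2 <;> simp at h1 h2 hne ⊢ <;> omega
        · refine ⟨0, 1, 2, by decide, by decide, by decide, ?_, ?_, h.1, h.2, by omega⟩ <;>
            fin_cases z1 <;> fin_cases z2 <;> simp at h1 h2 hne ⊢ <;> omega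
      obtain ⟨a, b, c', hab, hac, hbc, ha1, hb1, hca, hcb, hsumc⟩ := hperm
      have cardne : ∀ {x y z : Fin 3}, x ≠ y → x ≠ z → y ≠ z →
          (s.filter fun i => u i j ≠ y).card = cnt x + cnt z := by
        intro x y z hxy hxz hyz
        have : (s.filter fun i => u i j ≠ y) =
            (s.filter fun i => u i j = x) ∪ (s.filter fun i => u i j = z) := by
          ext i
          simp only [mem_filter, mem_union]
          have := three_cases x y z (u i j) hxy hxz hyz
          constructor
          · rintro ⟨hi, h⟩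
            rcases this with h' | h' | h'
            · exact Or.inl ⟨hi, h'⟩
            · exact absurd h' h
            · exact Or.inr ⟨hi, h'⟩
          · rintro (⟨hi, h⟩ | ⟨hi, h⟩)
            · exact ⟨hi, by rw [h]; exact hxy⟩
            · exact ⟨hi, by rw [h]; exact (Ne.symm hyz)⟩
        rw [this, Finset.card_union_of_disjoint]
        rw [Finset.disjoint_left]
        intro i h h'
        simp only [mem_filter] at h h'
        exact hxz (h.2.symm.trans h'.2)
      have hA := cardne hab hac hbc
      have hBc := cardne (Ne.symm hab) hbc hac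
      have hnorm : ∀ x : Fin 3, ∑ i ∈ s.filter (fun i => u i j ≠ x),
          ν (if u i j = c' then - c i else c i) ≤ B := by
        intro x
        refine le_trans ?_ hB
        calc _ = ∑ i ∈ s.filter (fun i => u i j ≠ x), ν (c i) := by
              refine Finset.sum_congr rfl fun i _ => ?_
              split_ifs
              · exact hν.neg _
              · rfl
          _ ≤ _ := Finset.sum_le_sum_of_subset (Finset.filter_subset _ _)
      have c1 := ih (cnt a + cnt c') (by omega) _ _ _ B hA (hv.child j hab hac hbc) (hnorm b)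
      have c2 := ih (cnt b + cnt c') (by omega) _ _ _ B hBc
        (hv.child j (Ne.symm hab) hbc hac) (hnorm a)
      have c3 : Cert ν (ax R j * ∑ i ∈ s.filter (fun i => u i j = c'),
          C (c i) * ∏ k ∈ univ.erase j, fac R k (u i k)) (cnt c') (cnt c' * B) := by
        refine (Cert.single j _).mono ?_ ?_
        · refine (card_support_sum _ _).trans ?_
          refine (Finset.sum_le_card_nsmul _ _ 1 fun i _ => ?_).trans (by simp [cnt])
          exact (Signed.prod _ _ fun k _ => Signed.fac k _).card_C_mul _
        · refine (wt_sum hν _ _).trans ?_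
          have h1 : ∑ i ∈ s.filter (fun i => u i j = c'),
              wt ν (C (c i) * ∏ k ∈ univ.erase j, fac R k (u i k)) ≤
              ∑ i ∈ s.filter (fun i => u i j = c'), ν (c i) :=
            Finset.sum_le_sum fun i _ => (Signed.prod _ _ fun k _ => Signed.fac k _).wt_C_mul hν _
          refine h1.trans ?_
          rcases Nat.eq_zero_or_pos (cnt c') with h0 | h0
          · have : s.filter (fun i => u i j = c') = ∅ := Finset.card_eq_zero.mp h0
            rw [this]; simp
          · calc _ ≤ ∑ i ∈ s, ν (c i) := Finset.sum_le_sum_of_subset (Finset.filter_subset _ _)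
              _ ≤ B := hB
              _ ≤ cnt c' * B := Nat.le_mul_of_pos_left _ h0
      rw [elim_identity s c u j hab hac hbc]
      have harith := arith ha1 hb1 hca hcb
      have htotal : cnt a + cnt b + cnt c' = N := by rw [hsumc, hs]
      rw [htotal] at harith
      refine ((c1.add hν c2).add hν c3).mono harith ?_
      calc _ = ((cnt a + cnt c') ^ 2 + (cnt b + cnt c') ^ 2 + cnt c') * B := by ring
        _ ≤ _ := Nat.mul_le_mul_right _ harith

end Pool.Agent.L5helper54.Static
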