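import Mathlib

/-!
# Static algebraic proof systems with dual variables

The variables are `x_j = X (j, true)` and their duals `x̄_j = X (j, false)` for `j : Fin n`.
-/

namespace Pool.Agent.L5helper54.Static

open MvPolynomial

/-- A clause is a finite set of literals; `(j, true)` is the literal `x_j` and `(j, false)` is the
literal `¬ x_j`. -/
abbrev Clause (n : ℕ) := Finset (Fin n × Bool)

/-- A formula in conjunctive normal form is a finite set of clauses. -/
abbrev CNF (n : ℕ) := Finset (Clause n)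

/-- The size of a formula: the number of occurrences of literals plus the number of clauses. -/
def CNF.length {n : ℕ} (Φ : CNF n) : ℕ := ∑ C ∈ Φ, (C.card + 1)

/-- Polynomials in the variables `x_j = X (j, true)` and `x̄_j = X (j, false)`. -/
abbrev Poly (n : ℕ) (F : Type*) [CommSemiring F] := MvPolynomial (Fin n × Bool) F

/-- The monomial `m_C` of a clause: the product of `x̄_j` over the literals `x_j` of `C` and of
`x_j` over the literals `¬ x_j` of `C`. -/
noncomputable def clauseMon (F : Type*) [CommSemiring F] {n : ℕ} (C : Clause n) : Poly n F :=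
  ∏ l ∈ C, X (l.1, !l.2)

/-- The axiom `x_j ^ 2 - x_j`. -/
noncomputable def boolAx (F : Type*) [CommRing F] {n : ℕ} (j : Fin n) : Poly n F :=
  X (j, true) ^ 2 - X (j, true)

/-- The axiom `x_j + x̄_j - 1`. -/
noncomputable def dualAx (F : Type*) [CommRing F] {n : ℕ} (j : Fin n) : Poly n F :=
  X (j, true) + X (j, false) - 1

/-- The ideal `I` generated by all `x_j ^ 2 - x_j` and `x_j + x̄_j - 1`. -/
noncomputable def axIdeal (F : Type*) [CommRing F] (n : ℕ) : Ideal (Poly n F) :=
  Ideal.span (Set.range (boolAx F (n := n)) ∪ Set.range (dualAx F (n := n)))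

/-- The size of a polynomial, if `w` is the size of a coefficient: every monomial which occurs
counts `1` plus the size of its coefficient. -/
def polySize {n : ℕ} {F : Type*} [CommSemiring F] (w : F → ℕ) (p : Poly n F) : ℕ :=
  ∑ m ∈ p.support, (1 + w (p.coeff m))

/-- The number of bits of a rational number: binary lengths of the numerator and of the
denominator. -/
def bitSize (q : ℚ) : ℕ := Nat.size q.num.natAbs + Nat.size q.den

/-- A refutation system is given by the relation: the formula `Φ` has a refutation of size `s`. -/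
def ProofSystem := ∀ n : ℕ, CNF n → ℕ → Prop

/-- `A` polynomially simulates `B`: for some polynomial `p` every formula `Φ` with a `B`-refutation
of size `s` has an `A`-refutation of size at most `p (s + |Φ|)`. -/
def Simulates (A B : ProofSystem) : Prop :=
  ∃ p : Polynomial ℕ, ∀ (n : ℕ) (Φ : CNF n) (s : ℕ), B n Φ s →
    ∃ s' : ℕ, s' ≤ p.eval (s + Φ.length) ∧ A n Φ s'

/-- Polynomial equivalence is mutual simulation. -/
def PolyEquivalent (A B : ProofSystem) : Prop := Simulates A B ∧ Simulates B A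

/-- Nullstellensatz with dual variables (NSR) over `F`: polynomials `q_C`, `r_j`, `t_j` with
`∑ m_C q_C + ∑ (x_j ^ 2 - x_j) r_j + ∑ (x_j + x̄_j - 1) t_j = 1`. -/
def NSR (F : Type*) [Field F] (w : F → ℕ) : ProofSystem := fun n Φ s =>
  ∃ (q : Clause n → Poly n F) (r t : Fin n → Poly n F),
    ∑ C ∈ Φ, clauseMon F C * q C + ∑ j, boolAx F j * r j + ∑ j, dualAx F j * t j = 1 ∧
    s = ∑ C ∈ Φ, polySize w (q C) + ∑ j, polySize w (r j) + ∑ j, polySize w (t j)

/-- Succinct NSR over `F`: polynomials `q_C` with `∑ m_C q_C ≡ 1` modulo `I`; only the `q_C` count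
towards the size. -/
def SuccinctNSR (F : Type*) [Field F] (w : F → ℕ) : ProofSystem := fun n Φ s =>
  ∃ q : Clause n → Poly n F,
    ∑ C ∈ Φ, clauseMon F C * q C - 1 ∈ axIdeal F n ∧
    s = ∑ C ∈ Φ, polySize w (q C)

/-- A conic junta is a nonnegative rational combination of monomials. -/
def IsConic {n : ℕ} (p : Poly n ℚ) : Prop := ∀ m, 0 ≤ p.coeff m

/-- Sherali–Adams with dual variables: conic juntas with
`∑ m_C (P_C - Q_C) + ∑ (x_j ^ 2 - x_j) (P_j - Q_j) + ∑ (x_j + x̄_j - 1) (P'_j - Q'_j) + R = -1`. -/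
def SA : ProofSystem := fun n Φ s =>
  ∃ (P Q : Clause n → Poly n ℚ) (P₁ Q₁ P₂ Q₂ : Fin n → Poly n ℚ) (R : Poly n ℚ),
    ((∀ C ∈ Φ, IsConic (P C) ∧ IsConic (Q C)) ∧ (∀ j, IsConic (P₁ j) ∧ IsConic (Q₁ j)) ∧
      (∀ j, IsConic (P₂ j) ∧ IsConic (Q₂ j)) ∧ IsConic R) ∧
    ∑ C ∈ Φ, clauseMon ℚ C * (P C - Q C) + ∑ j, boolAx ℚ j * (P₁ j - Q₁ j) +
      ∑ j, dualAx ℚ j * (P₂ j - Q₂ j) + R = -1 ∧
    s = ∑ C ∈ Φ, (polySize bitSize (P C) + polySize bitSize (Q C)) +
      ∑ j, (polySize bitSize (P₁ j) + polySize bitSize (Q₁ j)) +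
      ∑ j, (polySize bitSize (P₂ j) + polySize bitSize (Q₂ j)) + polySize bitSize R

/-- Succinct Sherali–Adams: conic juntas `P_C`, `Q_C`, `R` with `∑ m_C (P_C - Q_C) + R ≡ -1` modulo
`I`; only they count towards the size. -/
def SuccinctSA : ProofSystem := fun n Φ s =>
  ∃ (P Q : Clause n → Poly n ℚ) (R : Poly n ℚ),
    ((∀ C ∈ Φ, IsConic (P C) ∧ IsConic (Q C)) ∧ IsConic R) ∧
    ∑ C ∈ Φ, clauseMon ℚ C * (P C - Q C) + R - (-1) ∈ axIdeal ℚ n ∧
    s = ∑ C ∈ Φ, (polySize bitSize (P C) + polySize bitSize (Q C)) + polySize bitSize R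

end Pool.Agent.L5helper54.Static
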