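import Mathlib
import Pool.Agent.L5helper54.Static.Def
import Pool.Agent.L5helper54.Static.Core

/-!
# From refutations to families of cubes
-/

namespace Pool.Agent.L5helper54.Static

open MvPolynomial Finset

variable {R : Type*} [CommRing R] {n : ℕ} {ν : R → ℕ}

/-- A set of variables is consistent if it does not contain a variable and its dual. -/
def Consistent (V : Finset (Fin n × Bool)) : Prop := ∀ j, ¬ ((j, true) ∈ V ∧ (j, false) ∈ V)

/-- The Boolean point which belongs to an assignment. -/
def pt (R : Type*) [CommRing R] (a : Fin n → Bool) : Fin n × Bool → R :=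
  fun v => if a v.1 = v.2 then 1 else 0

/-- `T` is a sum of `N` monomials of cubes with total weight `B`. -/
def Rep (ν : R → ℕ) (T : MvPolynomial (Fin n × Bool) R) (N B : ℕ) : Prop :=
  ∃ (ι : Type) (_ : Fintype ι) (c : ι → R) (V : ι → Finset (Fin n × Bool)),
    (∀ i, Consistent (V i)) ∧ T = ∑ i, C (c i) * ∏ v ∈ V i, X v ∧
    Fintype.card ι ≤ N ∧ ∑ i, ν (c i) ≤ B

lemma Rep.zero : Rep ν (0 : MvPolynomial (Fin n × Bool) R) 0 0 :=
  ⟨Empty, inferInstance, fun i => i.elim, fun i => i.elim, fun i => i.elim, by simp, by simp,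
    by simp⟩

lemma Rep.mono {T : MvPolynomial (Fin n × Bool) R} {N N' B B' : ℕ} (h : Rep ν T N B)
    (hN : N ≤ N') (hB : B ≤ B') : Rep ν T N' B' := by
  obtain ⟨ι, hι, c, V, h1, h2, h3, h4⟩ := h
  exact ⟨ι, hι, c, V, h1, h2, h3.trans hN, h4.trans hB⟩

lemma Rep.add {T T' : MvPolynomial (Fin n × Bool) R} {N N' B B' : ℕ} (h : Rep ν T N B)
    (h' : Rep ν T' N' B') : Rep ν (T + T') (N + N') (B + B') := by
  obtain ⟨ι, hι, c, V, h1, rfl, h3, h4⟩ := h
  obtain ⟨κ, hκ, c', V', h1', rfl, h3', h4'⟩ := h'
  refine ⟨ι ⊕ κ, inferInstance, Sum.elim c c', Sum.elim V V', ?_, ?_, ?_, ?_⟩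
  · rintro (i | i)
    · exact h1 i
    · exact h1' i
  · simp [Fintype.sum_sum_type]
  · simp; omega
  · simp [Fintype.sum_sum_type]; omega

lemma Rep.neg (hν : Norm ν) {T : MvPolynomial (Fin n × Bool) R} {N B : ℕ} (h : Rep ν T N B) :
    Rep ν (-T) N B := by
  obtain ⟨ι, hι, c, V, h1, rfl, h3, h4⟩ := h
  refine ⟨ι, hι, fun i => - c i, V, h1, ?_, h3, ?_⟩
  · simp
  · simpa [hν.neg] using h4

lemma Rep.sum {ι : Type*} (s : Finset ι) (f : ι → MvPolynomial (Fin n × Bool) R) (N B : ι → ℕ)
    (h : ∀ i ∈ s, Rep ν (f i) (N i) (B i)) :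
    Rep ν (∑ i ∈ s, f i) (∑ i ∈ s, N i) (∑ i ∈ s, B i) := by
  classical
  induction s using Finset.induction_on with
  | empty => simpa using Rep.zero
  | insert i s hi ih =>
    rw [Finset.sum_insert hi, Finset.sum_insert hi, Finset.sum_insert hi]
    exact (h i (by simp)).add (ih fun k hk => h k (by simp [hk]))

lemma Rep.term {V : Finset (Fin n × Bool)} (hV : Consistent V) (c : R) :
    Rep ν (C c * ∏ v ∈ V, X v) 1 (ν c) :=
  ⟨Unit, inferInstance, fun _ => c, fun _ => V, fun _ => hV, by simp, by simp, by simp⟩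

/-- The cube of a consistent set of variables. -/
def cube (V : Finset (Fin n × Bool)) (j : Fin n) : Fin 3 :=
  if (j, true) ∈ V then 1 else if (j, false) ∈ V then 0 else 2

/-- The sign of a cube. -/
def sgn (R : Type*) [CommRing R] (u : Fin n → Fin 3) : R := ∏ j, if u j = 2 then -1 else 1

lemma sgn_eq (u : Fin n → Fin 3) : sgn R u = 1 ∨ sgn R u = -1 := by
  classical
  unfold sgn
  refine Finset.prod_induction _ (fun x : R => x = 1 ∨ x = -1) ?_ (Or.inl rfl) ?_
  · rintro a b (rfl | rfl) (rfl | rfl) <;> simp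
  · intro j _
    split_ifs <;> simp

lemma prod_eq_prod_fin {M : Type*} [CommMonoid M] (V : Finset (Fin n × Bool)) (hV : Consistent V)
    (f : Fin n × Bool → M) :
    ∏ v ∈ V, f v = ∏ j, (if cube V j = 1 then f (j, true) else
      if cube V j = 0 then f (j, false) else 1) := by
  classical
  have h1 : ∏ v ∈ V, f v = ∏ v : Fin n × Bool, if v ∈ V then f v else 1 := by
    rw [Finset.prod_ite_mem]; simp
  rw [h1, Fintype.prod_prod_type]
  refine Finset.prod_congr rfl fun j _ => ?_
  rw [Fintype.prod_bool]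
  unfold cube
  have := hV j
  by_cases ht : (j, true) ∈ V <;> by_cases hf : (j, false) ∈ V <;> simp_all

lemma prod_X_eq (V : Finset (Fin n × Bool)) (hV : Consistent V) :
    (∏ v ∈ V, X v : MvPolynomial (Fin n × Bool) R) = C (sgn R (cube V)) * mon R (cube V) := by
  classical
  rw [prod_eq_prod_fin V hV]
  unfold sgn mon
  rw [map_prod, ← Finset.prod_mul_distrib]
  refine Finset.prod_congr rfl fun j _ => ?_
  unfold fac
  generalize cube V j = z
  fin_cases z <;> simp

/-- Product functionals are combinations of Boolean points. -/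
lemma functional_eq (V : Finset (Fin n × Bool)) (hV : Consistent V) (ξ : Fin n → Fin 3 → R)
    (hξ : ∀ j, ξ j 0 + ξ j 1 + ξ j 2 = 0) :
    sgn R (cube V) * ∏ j, ξ j (cube V j) =
      ∑ a : Fin n → Bool, (∏ j, ξ j (if a j then 1 else 0)) * ∏ v ∈ V, pt R a v := by
  classical
  have h1 : sgn R (cube V) * ∏ j, ξ j (cube V j) =
      ∏ j, ∑ b : Bool, (ξ j (if b then 1 else 0)) *
        (if cube V j = 1 then (if b = true then 1 else 0) else
          if cube V j = 0 then (if b = false then 1 else 0) else 1) := by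
    unfold sgn
    rw [← Finset.prod_mul_distrib]
    refine Finset.prod_congr rfl fun j _ => ?_
    have := hξ j
    generalize cube V j = z
    fin_cases z
    · simp
    · simp
    · simp
      linear_combination (-1 : R) * this
  rw [h1, Finset.prod_univ_sum, Fintype.piFinset_univ]
  refine Finset.sum_congr rfl fun a _ => ?_
  rw [Finset.prod_mul_distrib, prod_eq_prod_fin V hV (pt R a)]
  congr 1

/-- A representable polynomial which vanishes at the Boolean points has a certificate. -/
lemma Rep.cert (hν : Norm ν) {T : MvPolynomial (Fin n × Bool) R} {N B : ℕ} (h : Rep ν T N B)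
    (hT : ∀ a : Fin n → Bool, eval (pt R a) T = 0) : Cert ν T (N ^ 2) (N ^ 2 * B) := by
  classical
  obtain ⟨ι, hι, c, V, h1, rfl, h3, h4⟩ := h
  have e1 : ∑ i, C (c i) * ∏ v ∈ V i, X v =
      ∑ i ∈ (univ : Finset ι), C (c i * sgn R (cube (V i))) * mon R (cube (V i)) := by
    refine Finset.sum_congr rfl fun i _ => ?_
    rw [prod_X_eq _ (h1 i), map_mul, mul_assoc]
  rw [e1]
  refine (core hν (Fintype.card ι) univ _ _ B (by simp) ?_ ?_).mono ?_ ?_
  · intro ξ hξ
    have e2 : ∀ i, c i * sgn R (cube (V i)) * ∏ j, ξ j (cube (V i) j) =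
        ∑ a : Fin n → Bool, (∏ j, ξ j (if a j then 1 else 0)) *
          (c i * ∏ v ∈ V i, pt R a v) := by
      intro i
      rw [mul_assoc, functional_eq _ (h1 i) ξ hξ, Finset.mul_sum]
      refine Finset.sum_congr rfl fun a _ => ?_
      ring
    rw [Finset.sum_congr rfl fun i _ => e2 i, Finset.sum_comm]
    refine Finset.sum_eq_zero fun a _ => ?_
    rw [← Finset.mul_sum]
    have := hT a
    simp only [map_sum, map_mul, eval_C, map_prod, eval_X] at this
    rw [this, mul_zero]
  · refine le_trans (Finset.sum_le_sum fun i _ => ?_) h4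
    rcases sgn_eq (R := R) (cube (V i)) with h | h <;> rw [h] <;> simp [hν.neg]
  · exact Nat.pow_le_pow_left h3 2
  · exact Nat.mul_le_mul_right _ (Nat.pow_le_pow_left h3 2)

/-- The variables of the monomial of a clause. -/
def dual (D : Clause n) : Finset (Fin n × Bool) := D.image fun l => (l.1, !l.2)

lemma dual_inj : Function.Injective (fun l : Fin n × Bool => (l.1, !l.2)) := by
  rintro ⟨a, b⟩ ⟨c, d⟩ h
  simp at h
  simp [h.1, h.2]

lemma clauseMon_eq (D : Clause n) : clauseMon R D = ∏ v ∈ dual D, X v := by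
  unfold clauseMon dual
  rw [Finset.prod_image dual_inj.injOn]

open Classical in
/-- The exponents of `q` which do not clash with the clause `D`. -/
noncomputable def good (D : Clause n) (q : MvPolynomial (Fin n × Bool) R) :
    Finset ((Fin n × Bool) →₀ ℕ) :=
  q.support.filter fun d => Consistent (dual D ∪ d.support)

/-- The cleaned version of `q`. -/
noncomputable def clean (D : Clause n) (q : MvPolynomial (Fin n × Bool) R) :
    MvPolynomial (Fin n × Bool) R :=
  ∑ d ∈ good D q, C (q.coeff d) * ∏ v ∈ d.support \ dual D, X v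

lemma prod_X_signed (V : Finset (Fin n × Bool)) :
    (∏ v ∈ V, X v : MvPolynomial (Fin n × Bool) R) =
      monomial (∑ v ∈ V, Finsupp.single v 1) 1 := by
  classical
  induction V using Finset.induction_on with
  | empty => simp
  | insert v V hv ih =>
    rw [Finset.prod_insert hv, Finset.sum_insert hv, ih, X, monomial_mul, one_mul]

lemma signed_prod_X (V : Finset (Fin n × Bool)) :
    Signed (∏ v ∈ V, X v : MvPolynomial (Fin n × Bool) R) := ⟨_, Or.inl (prod_X_signed V)⟩

lemma clean_card (D : Clause n) (q : MvPolynomial (Fin n × Bool) R) :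
    (clean D q).support.card ≤ q.support.card := by
  classical
  unfold clean
  refine (card_support_sum _ _).trans ?_
  refine (Finset.sum_le_card_nsmul _ _ 1 fun d _ => (signed_prod_X _).card_C_mul _).trans ?_
  simp only [smul_eq_mul, mul_one]
  exact Finset.card_filter_le _ _

lemma clean_wt (hν : Norm ν) (D : Clause n) (q : MvPolynomial (Fin n × Bool) R) :
    wt ν (clean D q) ≤ wt ν q := by
  classical
  unfold clean
  refine (wt_sum hν _ _).trans ?_
  refine (Finset.sum_le_sum fun d _ => (signed_prod_X _).wt_C_mul hν _).trans ?_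
  exact Finset.sum_le_sum_of_subset (Finset.filter_subset _ _)

lemma clauseMon_mul_clean (D : Clause n) (q : MvPolynomial (Fin n × Bool) R) :
    clauseMon R D * clean D q =
      ∑ d ∈ good D q, C (q.coeff d) * ∏ v ∈ dual D ∪ d.support, X v := by
  classical
  unfold clean
  rw [Finset.mul_sum, clauseMon_eq]
  refine Finset.sum_congr rfl fun d _ => ?_
  rw [← Finset.union_sdiff_self_eq_union, Finset.prod_union Finset.disjoint_sdiff]
  ring

lemma rep_clean (D : Clause n) (q : MvPolynomial (Fin n × Bool) R) :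
    Rep ν (clauseMon R D * clean D q) q.support.card (wt ν q) := by
  classical
  rw [clauseMon_mul_clean]
  refine (Rep.sum _ _ (fun _ => 1) (fun d => ν (q.coeff d)) fun d hd => ?_).mono ?_ ?_
  · have : Consistent (dual D ∪ d.support) := by
      have := hd
      unfold good at this
      simp only [mem_filter] at this
      exact this.2
    exact Rep.term this _
  · simp only [sum_const, smul_eq_mul, mul_one]
    exact Finset.card_filter_le _ _
  · exact Finset.sum_le_sum_of_subset (Finset.filter_subset _ _)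

lemma pt_pow (a : Fin n → Bool) (v : Fin n × Bool) {k : ℕ} (hk : k ≠ 0) :
    pt R a v ^ k = pt R a v := by
  unfold pt
  split_ifs <;> simp [hk]

lemma pt_mul_self (a : Fin n → Bool) (v : Fin n × Bool) : pt R a v * pt R a v = pt R a v := by
  unfold pt
  split_ifs <;> simp

lemma prod_pt_union (a : Fin n → Bool) (V W : Finset (Fin n × Bool)) :
    ∏ v ∈ V ∪ W, pt R a v = (∏ v ∈ V, pt R a v) * ∏ v ∈ W, pt R a v := by
  classical
  rw [← Finset.prod_union_inter]
  have : (∏ v ∈ V ∪ W, pt R a v) = (∏ v ∈ (V ∪ W) \ (V ∩ W), pt R a v) *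
      ∏ v ∈ V ∩ W, pt R a v := by
    rw [Finset.prod_sdiff]
    exact Finset.inter_subset_left.trans Finset.subset_union_left
  rw [this, mul_assoc, ← Finset.prod_mul_distrib]
  congr 1
  exact Finset.prod_congr rfl fun v _ => (pt_mul_self a v).symm

lemma prod_pt_inconsistent (a : Fin n → Bool) (V : Finset (Fin n × Bool)) (hV : ¬ Consistent V) :
    ∏ v ∈ V, pt R a v = 0 := by
  unfold Consistent at hV
  push Not at hV
  obtain ⟨j, h1, h2⟩ := hV
  by_cases h : a j
  · exact Finset.prod_eq_zero h2 (by simp [pt, h])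
  · exact Finset.prod_eq_zero h1 (by simp [pt, h])

lemma eval_clean (D : Clause n) (q : MvPolynomial (Fin n × Bool) R) (a : Fin n → Bool) :
    eval (pt R a) (clauseMon R D * clean D q) = eval (pt R a) (clauseMon R D * q) := by
  classical
  rw [clauseMon_mul_clean, clauseMon_eq]
  conv_rhs => rw [q.as_sum]
  simp only [map_sum, map_mul, eval_C, map_prod, eval_X, eval_monomial, Finset.mul_sum]
  unfold good
  rw [Finset.sum_filter]
  refine Finset.sum_congr rfl fun d _ => ?_
  have e1 : (d.prod fun v k => pt R a v ^ k) = ∏ v ∈ d.support, pt R a v := by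
    unfold Finsupp.prod
    exact Finset.prod_congr rfl fun v hv => pt_pow a v (Finsupp.mem_support_iff.mp hv)
  rw [e1]
  split_ifs with h
  · rw [prod_pt_union]; ring
  · have := prod_pt_inconsistent (R := R) a _ h
    rw [prod_pt_union] at this
    linear_combination (- coeff d q) * this

lemma eval_axIdeal {p : Poly n R} (hp : p ∈ axIdeal R n) (a : Fin n → Bool) :
    eval (pt R a) p = 0 := by
  have : axIdeal R n ≤ RingHom.ker (eval (pt R a)) := by
    unfold axIdeal
    rw [Ideal.span_le]
    rintro x (⟨j, rfl⟩ | ⟨j, rfl⟩)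
    · simp [boolAx, pt, RingHom.mem_ker]
    · by_cases h : a j <;> simp [dualAx, pt, RingHom.mem_ker, h]
  exact this hp

lemma ax_eq (j : Fin n) : ax R j = dualAx R j := rfl

end Pool.Agent.L5helper54.Static
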