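import Mathlib
import Pool.Agent.L5helper54.Static.Clean

/-!
# The simulation of the succinct systems
-/

namespace Pool.Agent.L5helper54.Static

open MvPolynomial Finset

section general

variable {R : Type*} [CommRing R] {n : ℕ} {ν : R → ℕ}

/-- The main step for NSR over a commutative ring: a value `K` at the Boolean points. -/
theorem nsr_ring (hν : Norm ν) (Φ : CNF n) (q : Clause n → Poly n R) (K : R)
    (h : ∀ a : Fin n → Bool, eval (pt R a) (∑ D ∈ Φ, clauseMon R D * q D) = K) :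
    Cert ν (∑ D ∈ Φ, clauseMon R D * clean D (q D) - C K)
      ((∑ D ∈ Φ, (q D).support.card + 1) ^ 2)
      ((∑ D ∈ Φ, (q D).support.card + 1) ^ 2 * (∑ D ∈ Φ, wt ν (q D) + ν K)) := by
  classical
  have h1 : Rep ν (C K : Poly n R) 1 (ν K) := by
    have := Rep.term (ν := ν) (R := R) (n := n) (V := ∅) (by intro j; simp) K
    simpa using this
  have h2 : Rep ν (∑ D ∈ Φ, clauseMon R D * clean D (q D) - C K)
      (∑ D ∈ Φ, (q D).support.card + 1) (∑ D ∈ Φ, wt ν (q D) + ν K) := by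
    rw [sub_eq_add_neg]
    exact (Rep.sum _ _ _ _ fun D _ => rep_clean D (q D)).add (h1.neg hν)
  refine h2.cert hν fun a => ?_
  rw [map_sub, eval_C, map_sum, Finset.sum_congr rfl fun D _ => eval_clean D (q D) a, ← map_sum,
    h a, sub_self]

end general

section field

variable {F : Type*} [Field F] {n : ℕ}

lemma norm_zero : Norm (fun _ : F => 0) := ⟨rfl, fun _ => rfl, fun _ _ => by simp⟩

lemma polySize_zero (p : Poly n F) : polySize (fun _ : F => 0) p = p.support.card := by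
  simp [polySize]

lemma card_support_neg (p : Poly n F) : (-p).support.card = p.support.card := by
  rw [support_neg]

theorem nsr_simulates (n : ℕ) (Φ : CNF n) (s : ℕ)
    (h : SuccinctNSR F (fun _ => 0) n Φ s) :
    ∃ s' : ℕ, s' ≤ s + (s + 1) ^ 2 ∧ NSR F (fun _ => 0) n Φ s' := by
  classical
  obtain ⟨q, hq, rfl⟩ := h
  have h1 : ∀ a : Fin n → Bool, eval (pt F a) (∑ D ∈ Φ, clauseMon F D * q D) = 1 := by
    intro a
    have := eval_axIdeal hq a
    rw [map_sub, map_one] at this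
    exact sub_eq_zero.mp this
  obtain ⟨t, ht1, ht2, -⟩ := nsr_ring (norm_zero (F := F)) Φ q 1 h1
  refine ⟨_, ?_, fun D => clean D (q D), 0, fun j => - t j, ?_, rfl⟩
  · simp only [polySize_zero, card_support_neg, Pi.zero_apply, support_zero, card_empty,
      sum_const_zero, add_zero]
    exact add_le_add (Finset.sum_le_sum fun D _ => clean_card D (q D)) ht2
  · have : ∑ j, dualAx F j * (- t j) = - ∑ j, ax F j * t j := by
      rw [← Finset.sum_neg_distrib]
      exact Finset.sum_congr rfl fun j _ => by rw [ax_eq]; ring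
    rw [this, ← ht1]
    simp

theorem succinct_of_nsr (w : F → ℕ) (n : ℕ) (Φ : CNF n) (s : ℕ)
    (h : NSR F w n Φ s) : ∃ s' : ℕ, s' ≤ s ∧ SuccinctNSR F w n Φ s' := by
  obtain ⟨q, r, t, h1, rfl⟩ := h
  refine ⟨_, ?_, q, ?_, rfl⟩
  · omega
  · have : ∑ D ∈ Φ, clauseMon F D * q D - 1 =
        - (∑ j, boolAx F j * r j + ∑ j, dualAx F j * t j) := by
      rw [← h1]; ring
    rw [this]
    refine Ideal.neg_mem_iff _ |>.mpr (Ideal.add_mem _ ?_ ?_)
    · exact Ideal.sum_mem _ fun j _ => Ideal.mul_mem_right _ _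
        (Ideal.subset_span (Or.inl ⟨j, rfl⟩))
    · exact Ideal.sum_mem _ fun j _ => Ideal.mul_mem_right _ _
        (Ideal.subset_span (Or.inr ⟨j, rfl⟩))

end field

/-! ### Bit sizes of rational coefficients -/

section bits

variable {n : ℕ}

lemma norm_natAbs : Norm (Int.natAbs : ℤ → ℕ) :=
  ⟨rfl, Int.natAbs_neg, Int.natAbs_add_le⟩

/-- Scaling of integer polynomials. -/
noncomputable def sc (K : ℕ) (p : Poly n ℤ) : Poly n ℚ :=
  C ((K : ℚ)⁻¹) * map (Int.castRingHom ℚ) p

lemma sc_coeff (K : ℕ) (p : Poly n ℤ) (m : (Fin n × Bool) →₀ ℕ) :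
    (sc K p).coeff m = ((p.coeff m : ℤ) : ℚ) / K := by
  unfold sc
  rw [coeff_C_mul, coeff_map, div_eq_mul_inv, mul_comm]
  simp

lemma sc_support (K : ℕ) (p : Poly n ℤ) : (sc K p).support ⊆ p.support := by
  intro m hm
  rw [mem_support_iff] at hm ⊢
  intro h
  apply hm
  rw [sc_coeff, h]; simp

lemma coeff_le_wt (p : Poly n ℤ) (m : (Fin n × Bool) →₀ ℕ) :
    (p.coeff m).natAbs ≤ wt Int.natAbs p := by
  classical
  by_cases hm : m ∈ p.support
  · exact Finset.single_le_sum (f := fun m => (p.coeff m).natAbs) (fun _ _ => Nat.zero_le _) hm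
  · rw [notMem_support_iff.mp hm]; simp

lemma bitSize_div (z : ℤ) {K : ℕ} (hK : 0 < K) :
    bitSize ((z : ℚ) / K) ≤ Nat.size z.natAbs + Nat.size K := by
  unfold bitSize
  have h1 : (((z : ℚ) / K).den : ℤ) ∣ (K : ℤ) := by
    have := Rat.den_dvd z (K : ℤ)
    rw [Rat.divInt_eq_div] at this
    simpa using this
  have h2 : ((z : ℚ) / K).den ≤ K := Nat.le_of_dvd hK (Int.natCast_dvd_natCast.mp h1)
  have h3 : ((z : ℚ) / K).num.natAbs ≤ z.natAbs := by
    rcases eq_or_ne z 0 with rfl | hz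
    · simp
    · have h4 := Rat.num_dvd z (b := (K : ℤ)) (by exact_mod_cast hK.ne')
      rw [Rat.divInt_eq_div] at h4
      have h5 : ((z : ℚ) / K).num ∣ z := by simpa using h4
      exact Nat.le_of_dvd (Int.natAbs_pos.mpr hz) (Int.natAbs_dvd_natAbs.mpr h5)
  exact add_le_add (Nat.size_le_size h3) (Nat.size_le_size h2)

/-- The size of a scaled polynomial. -/
lemma polySize_sc {K : ℕ} (hK : 0 < K) (p : Poly n ℤ) {A : ℕ} (hA : wt Int.natAbs p ≤ A) :
    polySize bitSize (sc K p) ≤ p.support.card * (1 + (Nat.size A + Nat.size K)) := by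
  classical
  unfold polySize
  calc _ ≤ ∑ m ∈ (sc K p).support, (1 + (Nat.size A + Nat.size K)) := by
        refine Finset.sum_le_sum fun m _ => ?_
        rw [sc_coeff]
        have h1 := bitSize_div (p.coeff m) hK
        have h2 := Nat.size_le_size ((coeff_le_wt p m).trans hA)
        omega
    _ ≤ _ := by
        rw [Finset.sum_const, smul_eq_mul]
        exact Nat.mul_le_mul_right _ (Finset.card_le_card (sc_support K p))

lemma sc_add (K : ℕ) (p q : Poly n ℤ) : sc K (p + q) = sc K p + sc K q := by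
  unfold sc; rw [map_add]; ring

lemma sc_sub (K : ℕ) (p q : Poly n ℤ) : sc K (p - q) = sc K p - sc K q := by
  unfold sc; rw [map_sub]; ring

lemma sc_neg (K : ℕ) (p : Poly n ℤ) : sc K (- p) = - sc K p := by
  unfold sc; rw [map_neg]; ring

lemma sc_sum {ι : Type*} (K : ℕ) (s : Finset ι) (f : ι → Poly n ℤ) :
    sc K (∑ i ∈ s, f i) = ∑ i ∈ s, sc K (f i) := by
  unfold sc; rw [map_sum, Finset.mul_sum]

lemma sc_mul (K : ℕ) (p q : Poly n ℤ) :
    sc K (p * q) = map (Int.castRingHom ℚ) p * sc K q := by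
  unfold sc; rw [map_mul]; ring

lemma sc_C {K : ℕ} (hK : 0 < K) : sc K (C (K : ℤ) : Poly n ℤ) = 1 := by
  unfold sc
  rw [map_C, ← map_mul]
  have : ((K : ℚ)⁻¹ * (Int.castRingHom ℚ) (K : ℤ)) = 1 := by
    simp; field_simp
  rw [this, map_one]

lemma map_clauseMon (D : Clause n) :
    map (Int.castRingHom ℚ) (clauseMon ℤ D) = clauseMon ℚ D := by
  unfold clauseMon
  rw [map_prod]
  simp

lemma map_ax (j : Fin n) : map (Int.castRingHom ℚ) (ax ℤ j : Poly n ℤ) = dualAx ℚ j := by
  unfold ax dualAx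
  simp

/-- The integer version of a rational polynomial whose denominators divide `K`. -/
noncomputable def intPoly (K : ℕ) (q : Poly n ℚ) : Poly n ℤ :=
  ∑ d ∈ q.support, monomial d ((q.coeff d).num * ((K / (q.coeff d).den : ℕ) : ℤ))

lemma intPoly_coeff (K : ℕ) (q : Poly n ℚ) (m : (Fin n × Bool) →₀ ℕ) :
    (intPoly K q).coeff m = (q.coeff m).num * ((K / (q.coeff m).den : ℕ) : ℤ) := by
  classical
  unfold intPoly
  rw [coeff_sum]
  simp only [coeff_monomial]
  rw [Finset.sum_ite_eq']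
  split_ifs with h
  · rfl
  · rw [notMem_support_iff.mp h]; simp

lemma intPoly_support (K : ℕ) (q : Poly n ℚ) : (intPoly K q).support ⊆ q.support := by
  intro m hm
  rw [mem_support_iff] at hm ⊢
  intro h
  apply hm
  rw [intPoly_coeff, h]; simp

lemma map_intPoly {K : ℕ} (q : Poly n ℚ) (h : ∀ m ∈ q.support, (q.coeff m).den ∣ K) :
    map (Int.castRingHom ℚ) (intPoly K q) = C (K : ℚ) * q := by
  classical
  ext m
  rw [coeff_map, intPoly_coeff, coeff_C_mul]
  by_cases hm : m ∈ q.support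
  · obtain ⟨e, he⟩ := h m hm
    have hd : (q.coeff m).den ≠ 0 := (q.coeff m).den_nz
    have h1 : K / (q.coeff m).den = e := by
      rw [he, Nat.mul_div_cancel_left _ (Nat.pos_of_ne_zero hd)]
    rw [h1]
    have h2 : ((q.coeff m).num : ℚ) = q.coeff m * (q.coeff m).den := (Rat.mul_den_eq_num _).symm
    have h3 : ((K : ℕ) : ℚ) = (q.coeff m).den * e := by rw [he]; push_cast; ring
    have h4 : ((q.coeff m).den : ℚ) ≠ 0 := by exact_mod_cast hd
    rw [h3]
    simp only [eq_intCast, Int.cast_mul, Int.cast_natCast]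
    rw [h2]
    ring
  · rw [notMem_support_iff.mp hm]; simp

lemma sc_intPoly {K : ℕ} (hK : 0 < K) (q : Poly n ℚ)
    (h : ∀ m ∈ q.support, (q.coeff m).den ∣ K) : sc K (intPoly K q) = q := by
  unfold sc
  rw [map_intPoly q h, ← mul_assoc, ← map_mul]
  have : ((K : ℚ)⁻¹ * (K : ℚ)) = 1 := by
    have : (K : ℚ) ≠ 0 := by exact_mod_cast hK.ne'
    field_simp
  rw [this, map_one, one_mul]

/-- The weight of the integer version. -/
lemma wt_intPoly (K : ℕ) (q : Poly n ℚ) :
    wt Int.natAbs (intPoly K q) + K ≤ 2 ^ (polySize bitSize q) * K := by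
  classical
  rw [wt_eq_of_subset norm_natAbs _ _ (intPoly_support K q)]
  have h1 : ∀ m ∈ q.support, ((intPoly K q).coeff m).natAbs ≤
      2 ^ (bitSize (q.coeff m)) * K := by
    intro m _
    rw [intPoly_coeff, Int.natAbs_mul, Int.natAbs_natCast]
    refine Nat.mul_le_mul ?_ (Nat.div_le_self _ _)
    have := Nat.lt_size_self (q.coeff m).num.natAbs
    refine this.le.trans (Nat.pow_le_pow_right (by norm_num) ?_)
    unfold bitSize; omega
  have h2 := Finset.sum_le_sum h1
  rw [← Finset.sum_mul] at h2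
  refine (Nat.add_le_add_right h2 K).trans ?_
  unfold polySize
  have key : ∀ (S : Finset ((Fin n × Bool) →₀ ℕ)) (f : ((Fin n × Bool) →₀ ℕ) → ℕ),
      ∑ m ∈ S, 2 ^ f m + 1 ≤ 2 ^ (∑ m ∈ S, (1 + f m)) := by
    intro S f
    induction S using Finset.induction_on with
    | empty => simp
    | insert m S hm ih =>
      rw [Finset.sum_insert hm, Finset.sum_insert hm, pow_add]
      have h1 : 1 ≤ 2 ^ (∑ m ∈ S, (1 + f m)) := Nat.one_le_two_pow
      have h2 : 1 ≤ 2 ^ f m := Nat.one_le_two_pow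
      have h3 : 2 ^ (1 + f m) = 2 * 2 ^ f m := by rw [pow_add]; ring
      rw [h3]
      nlinarith [Nat.mul_le_mul h1 h2]
  calc _ = (∑ m ∈ q.support, 2 ^ bitSize (q.coeff m) + 1) * K := by ring
    _ ≤ _ := Nat.mul_le_mul_right _ (key _ _)

lemma add_bound {w w' a b K : ℕ} (h : w + K ≤ 2 ^ a * K) (h' : w' + K ≤ 2 ^ b * K) :
    w + w' + K ≤ 2 ^ (a + b) * K := by
  have h1 : 1 ≤ 2 ^ a := Nat.one_le_two_pow
  have h2 : 1 ≤ 2 ^ b := Nat.one_le_two_pow
  obtain ⟨x, hx⟩ := Nat.exists_eq_add_of_le h1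
  obtain ⟨y, hy⟩ := Nat.exists_eq_add_of_le h2
  rw [pow_add]
  rw [hx] at h ⊢
  rw [hy] at h' ⊢
  nlinarith [Nat.zero_le (x * y * K)]

lemma sum_bound {ι : Type*} (s : Finset ι) (w e : ι → ℕ) (K : ℕ)
    (h : ∀ i ∈ s, w i + K ≤ 2 ^ (e i) * K) : ∑ i ∈ s, w i + K ≤ 2 ^ (∑ i ∈ s, e i) * K := by
  classical
  induction s using Finset.induction_on with
  | empty => simp
  | insert i s hi ih =>
    rw [Finset.sum_insert hi, Finset.sum_insert hi]
    exact add_bound (h i (by simp)) (ih fun k hk => h k (by simp [hk]))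

/-- The product of the denominators of the coefficients. -/
noncomputable def dens (q : Poly n ℚ) : ℕ := ∏ m ∈ q.support, (q.coeff m).den

lemma dens_pos (q : Poly n ℚ) : 0 < dens q :=
  Finset.prod_pos fun m _ => (q.coeff m).den_pos

lemma dvd_dens (q : Poly n ℚ) : ∀ m ∈ q.support, (q.coeff m).den ∣ dens q :=
  fun _ hm => Finset.dvd_prod_of_mem _ hm

lemma dens_le (q : Poly n ℚ) : dens q ≤ 2 ^ (polySize bitSize q) := by
  classical
  unfold dens polySize
  rw [← Finset.prod_pow_eq_pow_sum]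
  refine Finset.prod_le_prod' fun m _ => ?_
  have := Nat.lt_size_self (q.coeff m).den
  refine this.le.trans (Nat.pow_le_pow_right (by norm_num) ?_)
  unfold bitSize; omega

lemma card_le_polySize (q : Poly n ℚ) : q.support.card ≤ polySize bitSize q := by
  unfold polySize
  rw [Finset.card_eq_sum_ones]
  exact Finset.sum_le_sum fun m _ => by omega

lemma eval_map_pt (p : Poly n ℤ) (a : Fin n → Bool) :
    eval (pt ℚ a) (map (Int.castRingHom ℚ) p) = ((eval (pt ℤ a) p : ℤ) : ℚ) := by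
  have h : pt ℚ a = fun v => (Int.castRingHom ℚ) (pt ℤ a v) := by
    funext v
    unfold pt
    split_ifs <;> simp
  rw [h, eval_map]
  exact (eval₂_comp (Int.castRingHom ℚ) (pt ℤ a) p).symm

end bits

end Pool.Agent.L5helper54.Static
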