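import Mathlib
import Pool.Agent.L5helper54.Static.Main

/-!
# The simulation of the succinct systems over the rational numbers
-/

namespace Pool.Agent.L5helper54.Static

open MvPolynomial Finset

variable {n : ℕ}

lemma size_two_pow_le {a e : ℕ} (h : a ≤ 2 ^ e) : Nat.size a ≤ e + 1 :=
  (Nat.size_le_size h).trans (by rw [Nat.size_pow])

/-- The bound for the weights. -/
lemma weight_bound {N S B : ℕ} (hN : N ≤ S + 1) (hB : B ≤ 2 ^ (2 * S)) :
    N ^ 2 * B ≤ 2 ^ (4 * S) := by
  have h1 : S + 1 ≤ 2 ^ S := Nat.lt_two_pow_self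
  have h2 : N ^ 2 ≤ (2 ^ S) ^ 2 := Nat.pow_le_pow_left (hN.trans h1) 2
  calc N ^ 2 * B ≤ (2 ^ S) ^ 2 * 2 ^ (2 * S) := Nat.mul_le_mul h2 hB
    _ = 2 ^ (4 * S) := by rw [← pow_mul, ← pow_add]; congr 1; ring

/-- NSR over the rational numbers, with the bit sizes of the coefficients. -/
theorem nsr_rat_simulates (n : ℕ) (Φ : CNF n) (s : ℕ)
    (h : SuccinctNSR ℚ bitSize n Φ s) :
    ∃ s' : ℕ, s' ≤ (s + (s + 1) ^ 2) * (5 * s + 3) ∧ NSR ℚ bitSize n Φ s' := by
  classical
  obtain ⟨q, hq, rfl⟩ := h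
  set S := ∑ D ∈ Φ, polySize bitSize (q D) with hS
  -- the common denominator
  set K : ℕ := ∏ D ∈ Φ, dens (q D) with hK
  have hKpos : 0 < K := Finset.prod_pos fun D _ => dens_pos _
  have hKle : K ≤ 2 ^ S := by
    rw [hK, hS, ← Finset.prod_pow_eq_pow_sum]
    exact Finset.prod_le_prod' fun D _ => dens_le _
  have hden : ∀ D ∈ Φ, ∀ m ∈ (q D).support, ((q D).coeff m).den ∣ K := fun D hD m hm =>
    (dvd_dens (q D) m hm).trans (Finset.dvd_prod_of_mem _ hD)
  let z : Clause n → Poly n ℤ := fun D => intPoly K (q D)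
  have hmap : ∀ D ∈ Φ, map (Int.castRingHom ℚ) (z D) = C (K : ℚ) * q D :=
    fun D hD => map_intPoly _ (hden D hD)
  have heval : ∀ a : Fin n → Bool,
      eval (pt ℤ a) (∑ D ∈ Φ, clauseMon ℤ D * z D) = (K : ℤ) := by
    intro a
    have h1 := eval_axIdeal hq a
    rw [map_sub, map_one, sub_eq_zero] at h1
    have h2 : eval (pt ℚ a) (map (Int.castRingHom ℚ) (∑ D ∈ Φ, clauseMon ℤ D * z D)) = K := by
      have : map (Int.castRingHom ℚ) (∑ D ∈ Φ, clauseMon ℤ D * z D) =
          C (K : ℚ) * ∑ D ∈ Φ, clauseMon ℚ D * q D := by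
        rw [map_sum, Finset.mul_sum]
        refine Finset.sum_congr rfl fun D hD => ?_
        rw [map_mul, map_clauseMon, hmap D hD]
        ring
      rw [this, map_mul, eval_C, h1, mul_one]
    rw [eval_map_pt] at h2
    exact_mod_cast h2
  obtain ⟨t, ht1, ht2, ht3⟩ := nsr_ring norm_natAbs Φ z (K : ℤ) heval
  -- the bounds
  have hcard : ∑ D ∈ Φ, (z D).support.card ≤ S :=
    Finset.sum_le_sum fun D _ =>
      (Finset.card_le_card (intPoly_support K (q D))).trans (card_le_polySize _)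
  have hwt : ∑ D ∈ Φ, wt Int.natAbs (z D) + (K : ℤ).natAbs ≤ 2 ^ (2 * S) := by
    rw [Int.natAbs_natCast]
    refine (sum_bound Φ _ (fun D => polySize bitSize (q D)) K fun D _ => wt_intPoly K _).trans ?_
    calc _ ≤ 2 ^ S * 2 ^ S := Nat.mul_le_mul_left _ hKle
      _ = _ := by rw [← pow_add]; congr 1; ring
  have hN : ∑ D ∈ Φ, (z D).support.card + 1 ≤ S + 1 := by omega
  have hA := weight_bound hN hwt
  have hwt' : ∀ D ∈ Φ, wt Int.natAbs (clean D (z D)) ≤ 2 ^ (4 * S) := by
    intro D hD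
    refine (clean_wt norm_natAbs D _).trans ?_
    have h1 : wt Int.natAbs (z D) ≤ ∑ D ∈ Φ, wt Int.natAbs (z D) :=
      Finset.single_le_sum (f := fun D => wt Int.natAbs (z D)) (fun _ _ => Nat.zero_le _) hD
    have h2 : (2 : ℕ) ^ (2 * S) ≤ 2 ^ (4 * S) := Nat.pow_le_pow_right (by norm_num) (by omega)
    omega
  have hwt'' : ∀ j, wt Int.natAbs (- t j) ≤ 2 ^ (4 * S) := by
    intro j
    have h1 : wt Int.natAbs (- t j) = wt Int.natAbs (t j) := by
      unfold wt; rw [support_neg]; simp
    rw [h1]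
    exact (Finset.single_le_sum (f := fun j => wt Int.natAbs (t j)) (fun _ _ => Nat.zero_le _)
      (mem_univ j)).trans (ht3.trans hA)
  have hsz : 1 + (Nat.size (2 ^ (4 * S)) + Nat.size K) ≤ 5 * S + 3 := by
    have h1 := size_two_pow_le (le_refl (2 ^ (4 * S)))
    have h2 := size_two_pow_le hKle
    omega
  refine ⟨_, ?_, fun D => sc K (clean D (z D)), 0, fun j => sc K (- t j), ?_, rfl⟩
  · have e1 : ∑ D ∈ Φ, polySize bitSize (sc K (clean D (z D))) ≤ S * (5 * S + 3) := by
      calc _ ≤ ∑ D ∈ Φ, (z D).support.card * (5 * S + 3) := by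
            refine Finset.sum_le_sum fun D hD => ?_
            exact (polySize_sc hKpos _ (hwt' D hD)).trans
              (Nat.mul_le_mul (clean_card D _) hsz)
        _ ≤ _ := by rw [← Finset.sum_mul]; exact Nat.mul_le_mul_right _ hcard
    have e2 : ∑ j, polySize bitSize (sc K (- t j)) ≤ (S + 1) ^ 2 * (5 * S + 3) := by
      calc _ ≤ ∑ j, (t j).support.card * (5 * S + 3) := by
            refine Finset.sum_le_sum fun j _ => ?_
            refine (polySize_sc hKpos _ (hwt'' j)).trans (Nat.mul_le_mul ?_ hsz)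
            rw [support_neg]
        _ ≤ _ := by
            rw [← Finset.sum_mul]
            exact Nat.mul_le_mul_right _ (ht2.trans (Nat.pow_le_pow_left hN 2))
    have e3 : ∑ j : Fin n, polySize bitSize ((0 : Fin n → Poly n ℚ) j) = 0 := by
      simp [polySize]
    simp only [e3, add_zero, add_mul]
    exact add_le_add e1 e2
  · have e1 : sc K (∑ D ∈ Φ, clauseMon ℤ D * clean D (z D) - C (K : ℤ)) =
        ∑ D ∈ Φ, clauseMon ℚ D * sc K (clean D (z D)) - 1 := by
      rw [sc_sub, sc_C hKpos, sc_sum]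
      simp only [sc_mul, map_clauseMon]
    have e2 : sc K (∑ j, ax ℤ j * t j) = ∑ j, dualAx ℚ j * sc K (t j) := by
      rw [sc_sum]
      simp only [sc_mul, map_ax]
    have e3 := congrArg (sc K) ht1
    rw [e1, e2] at e3
    simp only [sc_neg, Pi.zero_apply, mul_zero, sum_const_zero, add_zero, mul_neg,
      Finset.sum_neg_distrib]
    linear_combination e3

/-! ### Sherali–Adams -/

/-- The positive part of an integer polynomial. -/
noncomputable def posP (p : Poly n ℤ) : Poly n ℤ :=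
  ∑ d ∈ p.support, monomial d (max (p.coeff d) 0)

lemma posP_coeff (p : Poly n ℤ) (m : (Fin n × Bool) →₀ ℕ) :
    (posP p).coeff m = max (p.coeff m) 0 := by
  classical
  unfold posP
  rw [coeff_sum]
  simp only [coeff_monomial]
  rw [Finset.sum_ite_eq']
  split_ifs with h
  · rfl
  · rw [notMem_support_iff.mp h]; simp

lemma posP_support (p : Poly n ℤ) : (posP p).support ⊆ p.support := by
  intro m hm
  rw [mem_support_iff] at hm ⊢
  intro h
  apply hm
  rw [posP_coeff, h]; simp

lemma posP_sub (p : Poly n ℤ) : posP (-p) - posP p = - p := by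
  ext m
  rw [coeff_sub, posP_coeff, posP_coeff, coeff_neg]
  rcases le_total (p.coeff m) 0 with h | h
  · rw [max_eq_left (by omega), max_eq_right h]; ring
  · rw [max_eq_right (by omega), max_eq_left h]; ring

lemma posP_wt (p : Poly n ℤ) : wt Int.natAbs (posP p) ≤ wt Int.natAbs p := by
  rw [wt_eq_of_subset norm_natAbs _ _ (posP_support p)]
  unfold wt
  refine Finset.sum_le_sum fun m _ => ?_
  rw [posP_coeff]
  rcases le_total (p.coeff m) 0 with h | h
  · rw [max_eq_right h]; simp
  · rw [max_eq_left h]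

lemma conic_sc_posP (K : ℕ) (p : Poly n ℤ) : IsConic (sc K (posP p)) := by
  intro m
  rw [sc_coeff, posP_coeff]
  have : (0 : ℚ) ≤ ((max (p.coeff m) 0 : ℤ) : ℚ) := by exact_mod_cast le_max_right _ _
  positivity

lemma clean_nonneg (D : Clause n) (q : Poly n ℤ) (h : ∀ m, 0 ≤ q.coeff m)
    (m : (Fin n × Bool) →₀ ℕ) : 0 ≤ (clean D q).coeff m := by
  classical
  unfold clean
  rw [coeff_sum]
  refine Finset.sum_nonneg fun d _ => ?_
  rw [prod_X_signed, C_mul_monomial, coeff_monomial]
  split_ifs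
  · simpa using h d
  · exact le_refl 0

lemma intPoly_nonneg (K : ℕ) (q : Poly n ℚ) (h : IsConic q) (m : (Fin n × Bool) →₀ ℕ) :
    0 ≤ (intPoly K q).coeff m := by
  rw [intPoly_coeff]
  exact mul_nonneg (Rat.num_nonneg.mpr (h m)) (by positivity)

lemma conic_sc_clean (K : ℕ) (D : Clause n) (q : Poly n ℚ) (h : IsConic q) :
    IsConic (sc K (clean D (intPoly K q))) := by
  intro m
  rw [sc_coeff]
  have : (0 : ℚ) ≤ (((clean D (intPoly K q)).coeff m : ℤ) : ℚ) := by
    exact_mod_cast clean_nonneg D _ (intPoly_nonneg K q h) m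
  positivity

lemma clauseMon_empty (R : Type*) [CommRing R] : clauseMon R (∅ : Clause n) = 1 := by
  simp [clauseMon]

/-- Sherali–Adams simulates succinct Sherali–Adams. -/
theorem sa_simulates (n : ℕ) (Φ : CNF n) (s : ℕ) (h : SuccinctSA n Φ s) :
    ∃ s' : ℕ, s' ≤ (s + 2 * (s + 1) ^ 2) * (5 * s + 3) ∧ SA n Φ s' := by
  classical
  obtain ⟨P, Q, R, ⟨hPQ, hR⟩, hq, rfl⟩ := h
  set S := ∑ D ∈ Φ, (polySize bitSize (P D) + polySize bitSize (Q D)) + polySize bitSize R with hS
  -- the common denominator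
  set K : ℕ := (∏ D ∈ Φ, (dens (P D) * dens (Q D))) * dens R with hK
  have hKpos : 0 < K := Nat.mul_pos
    (Finset.prod_pos fun D _ => Nat.mul_pos (dens_pos _) (dens_pos _)) (dens_pos _)
  have hKle : K ≤ 2 ^ S := by
    rw [hK, hS, pow_add, ← Finset.prod_pow_eq_pow_sum]
    refine Nat.mul_le_mul (Finset.prod_le_prod' fun D _ => ?_) (dens_le _)
    rw [pow_add]
    exact Nat.mul_le_mul (dens_le _) (dens_le _)
  have hdP : ∀ D ∈ Φ, ∀ m ∈ (P D).support, ((P D).coeff m).den ∣ K := fun D hD m hm =>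
    ((dvd_dens (P D) m hm).trans (Nat.dvd_mul_right _ _)).trans
      ((Finset.dvd_prod_of_mem (fun D => dens (P D) * dens (Q D)) hD).trans (Nat.dvd_mul_right _ _))
  have hdQ : ∀ D ∈ Φ, ∀ m ∈ (Q D).support, ((Q D).coeff m).den ∣ K := fun D hD m hm =>
    ((dvd_dens (Q D) m hm).trans (Nat.dvd_mul_left _ _)).trans
      ((Finset.dvd_prod_of_mem (fun D => dens (P D) * dens (Q D)) hD).trans (Nat.dvd_mul_right _ _))
  have hdR : ∀ m ∈ R.support, (R.coeff m).den ∣ K := fun m hm =>
    (dvd_dens R m hm).trans (Nat.dvd_mul_left _ _)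
  let p : Clause n → Poly n ℤ := fun D => intPoly K (P D)
  let q : Clause n → Poly n ℤ := fun D => intPoly K (Q D)
  let r : Poly n ℤ := intPoly K R
  -- the polynomial which vanishes at the Boolean points
  let T : Poly n ℤ := ∑ D ∈ Φ, (clauseMon ℤ D * clean D (p D) +
    -(clauseMon ℤ D * clean D (q D))) + (clauseMon ℤ ∅ * clean ∅ r + C (K : ℤ))
  have heval : ∀ a : Fin n → Bool, eval (pt ℤ a) T = 0 := by
    intro a
    have h1 := eval_axIdeal hq a
    have h2 : eval (pt ℚ a) (map (Int.castRingHom ℚ)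
        (∑ D ∈ Φ, (clauseMon ℤ D * p D + -(clauseMon ℤ D * q D)) +
          (clauseMon ℤ ∅ * r + C (K : ℤ)))) = 0 := by
      have : map (Int.castRingHom ℚ)
        (∑ D ∈ Φ, (clauseMon ℤ D * p D + -(clauseMon ℤ D * q D)) +
          (clauseMon ℤ ∅ * r + C (K : ℤ))) =
          C (K : ℚ) * (∑ D ∈ Φ, clauseMon ℚ D * (P D - Q D) + R - (-1)) := by
        have e1 : ∀ D ∈ Φ, map (Int.castRingHom ℚ)
            (clauseMon ℤ D * p D + -(clauseMon ℤ D * q D)) =
            C (K : ℚ) * (clauseMon ℚ D * (P D - Q D)) := by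
          intro D hD
          have h3 : map (Int.castRingHom ℚ) (p D) = C (K : ℚ) * P D := map_intPoly _ (hdP D hD)
          have h4 : map (Int.castRingHom ℚ) (q D) = C (K : ℚ) * Q D := map_intPoly _ (hdQ D hD)
          rw [map_add, map_neg, map_mul, map_mul, map_clauseMon, h3, h4]
          ring
        have h5 : map (Int.castRingHom ℚ) r = C (K : ℚ) * R := map_intPoly _ hdR
        rw [map_add, map_sum, Finset.sum_congr rfl e1, ← Finset.mul_sum, map_add, map_mul, h5,
          map_clauseMon, clauseMon_empty, map_C]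
        simp only [map_natCast]
        ring
      rw [this, map_mul, h1, mul_zero]
    rw [eval_map_pt] at h2
    have h3 : eval (pt ℤ a) (∑ D ∈ Φ, (clauseMon ℤ D * p D + -(clauseMon ℤ D * q D)) +
          (clauseMon ℤ ∅ * r + C (K : ℤ))) = 0 := by exact_mod_cast h2
    rw [← h3]
    simp only [T, map_add, map_sum, map_neg, eval_clean]
  have hrep : Rep Int.natAbs T
      (∑ D ∈ Φ, ((p D).support.card + (q D).support.card) + (r.support.card + 1))
      (∑ D ∈ Φ, (wt Int.natAbs (p D) + wt Int.natAbs (q D)) + (wt Int.natAbs r + K)) := by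
    have h1 : Rep Int.natAbs (C (K : ℤ) : Poly n ℤ) 1 K := by
      have := Rep.term (ν := Int.natAbs) (n := n) (V := ∅) (by intro j; simp) (K : ℤ)
      simpa using this
    exact (Rep.sum _ _ _ _ fun D _ => (rep_clean D (p D)).add
      ((rep_clean D (q D)).neg norm_natAbs)).add ((rep_clean ∅ r).add h1)
  obtain ⟨t, ht1, ht2, ht3⟩ := hrep.cert norm_natAbs heval
  -- the bounds
  have hcard : ∑ D ∈ Φ, ((p D).support.card + (q D).support.card) + r.support.card ≤ S := by
    refine add_le_add (Finset.sum_le_sum fun D _ => add_le_add ?_ ?_) ?_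
    · exact (Finset.card_le_card (intPoly_support K (P D))).trans (card_le_polySize _)
    · exact (Finset.card_le_card (intPoly_support K (Q D))).trans (card_le_polySize _)
    · exact (Finset.card_le_card (intPoly_support K R)).trans (card_le_polySize _)
  have hwt : ∑ D ∈ Φ, (wt Int.natAbs (p D) + wt Int.natAbs (q D)) + (wt Int.natAbs r + K) ≤
      2 ^ (2 * S) := by
    have h1 := sum_bound Φ (fun D => wt Int.natAbs (p D) + wt Int.natAbs (q D))
      (fun D => polySize bitSize (P D) + polySize bitSize (Q D)) K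
      fun D _ => add_bound (wt_intPoly K (P D)) (wt_intPoly K (Q D))
    have h2 := add_bound h1 (wt_intPoly K R)
    rw [← add_assoc]
    refine h2.trans ?_
    calc _ ≤ 2 ^ S * 2 ^ S := Nat.mul_le_mul_left _ hKle
      _ = _ := by rw [← pow_add]; congr 1; ring
  have hN : ∑ D ∈ Φ, ((p D).support.card + (q D).support.card) + (r.support.card + 1) ≤ S + 1 := by
    omega
  have hA := weight_bound hN hwt
  have hmono : (2 : ℕ) ^ (2 * S) ≤ 2 ^ (4 * S) := Nat.pow_le_pow_right (by norm_num) (by omega)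
  have hwtD : ∀ D ∈ Φ, wt Int.natAbs (p D) + wt Int.natAbs (q D) ≤ 2 ^ (4 * S) := by
    intro D hD
    have h1 := Finset.single_le_sum (f := fun D => wt Int.natAbs (p D) + wt Int.natAbs (q D))
      (fun _ _ => Nat.zero_le _) hD
    omega
  have hwtr : wt Int.natAbs (clean ∅ r) ≤ 2 ^ (4 * S) := by
    refine (clean_wt norm_natAbs _ _).trans ?_
    omega
  have hwtp : ∀ D ∈ Φ, wt Int.natAbs (clean D (p D)) ≤ 2 ^ (4 * S) := by
    intro D hD
    refine (clean_wt norm_natAbs _ _).trans ?_
    have := hwtD D hD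
    omega
  have hwtq : ∀ D ∈ Φ, wt Int.natAbs (clean D (q D)) ≤ 2 ^ (4 * S) := by
    intro D hD
    refine (clean_wt norm_natAbs _ _).trans ?_
    have := hwtD D hD
    omega
  have hwtt : ∀ j, wt Int.natAbs (t j) ≤ 2 ^ (4 * S) := fun j =>
    (Finset.single_le_sum (f := fun j => wt Int.natAbs (t j)) (fun _ _ => Nat.zero_le _)
      (mem_univ j)).trans (ht3.trans hA)
  have hwtn : ∀ j, wt Int.natAbs (- t j) ≤ 2 ^ (4 * S) := by
    intro j
    have h1 : wt Int.natAbs (- t j) = wt Int.natAbs (t j) := by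
      unfold wt; rw [support_neg]; simp
    rw [h1]
    exact hwtt j
  have hsz : 1 + (Nat.size (2 ^ (4 * S)) + Nat.size K) ≤ 5 * S + 3 := by
    have h1 := size_two_pow_le (le_refl (2 ^ (4 * S)))
    have h2 := size_two_pow_le hKle
    omega
  refine ⟨_, ?_, fun D => sc K (clean D (p D)), fun D => sc K (clean D (q D)), 0, 0,
    fun j => sc K (posP (- t j)), fun j => sc K (posP (t j)), sc K (clean ∅ r),
    ⟨fun D hD => ⟨conic_sc_clean K D _ (hPQ D hD).1, conic_sc_clean K D _ (hPQ D hD).2⟩,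
      fun j => ⟨fun m => by simp, fun m => by simp⟩,
      fun j => ⟨conic_sc_posP K _, conic_sc_posP K _⟩, conic_sc_clean K ∅ _ hR⟩, ?_, rfl⟩
  · have e1 : ∑ D ∈ Φ, (polySize bitSize (sc K (clean D (p D))) +
        polySize bitSize (sc K (clean D (q D)))) ≤
        (∑ D ∈ Φ, ((p D).support.card + (q D).support.card)) * (5 * S + 3) := by
      rw [Finset.sum_mul]
      refine Finset.sum_le_sum fun D hD => ?_
      rw [add_mul]
      exact add_le_add
        ((polySize_sc hKpos _ (hwtp D hD)).trans (Nat.mul_le_mul (clean_card D _) hsz))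
        ((polySize_sc hKpos _ (hwtq D hD)).trans (Nat.mul_le_mul (clean_card D _) hsz))
    have e1' : polySize bitSize (sc K (clean ∅ r)) ≤ r.support.card * (5 * S + 3) :=
      (polySize_sc hKpos _ hwtr).trans (Nat.mul_le_mul (clean_card ∅ _) hsz)
    have e2 : ∑ j, (polySize bitSize (sc K (posP (- t j))) +
        polySize bitSize (sc K (posP (t j)))) ≤ 2 * (S + 1) ^ 2 * (5 * S + 3) := by
      calc _ ≤ ∑ j, 2 * (t j).support.card * (5 * S + 3) := by
            refine Finset.sum_le_sum fun j _ => ?_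
            have h1 : polySize bitSize (sc K (posP (- t j))) ≤ (t j).support.card * (5 * S + 3) := by
              refine (polySize_sc hKpos _ ((posP_wt _).trans (hwtn j))).trans
                (Nat.mul_le_mul ((Finset.card_le_card (posP_support _)).trans ?_) hsz)
              rw [support_neg]
            have h2 : polySize bitSize (sc K (posP (t j))) ≤ (t j).support.card * (5 * S + 3) :=
              (polySize_sc hKpos _ ((posP_wt _).trans (hwtt j))).trans
                (Nat.mul_le_mul (Finset.card_le_card (posP_support _)) hsz)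
            calc _ ≤ (t j).support.card * (5 * S + 3) + (t j).support.card * (5 * S + 3) :=
                  add_le_add h1 h2
              _ = _ := by ring
        _ = 2 * (∑ j, (t j).support.card) * (5 * S + 3) := by
            rw [← Finset.sum_mul, ← Finset.mul_sum]
        _ ≤ _ := by
            refine Nat.mul_le_mul_right _ (Nat.mul_le_mul_left _ ?_)
            exact ht2.trans (Nat.pow_le_pow_left hN 2)
    have e3 : ∑ j : Fin n, (polySize bitSize ((0 : Fin n → Poly n ℚ) j) +
        polySize bitSize ((0 : Fin n → Poly n ℚ) j)) = 0 := by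
      simp [polySize]
    have h6 := Nat.mul_le_mul_right (5 * S + 3) hcard
    rw [add_mul] at h6
    rw [e3, add_zero]
    calc _ ≤ (∑ D ∈ Φ, ((p D).support.card + (q D).support.card)) * (5 * S + 3) +
          2 * (S + 1) ^ 2 * (5 * S + 3) + r.support.card * (5 * S + 3) :=
          add_le_add (add_le_add e1 e2) e1'
      _ ≤ _ := by rw [add_mul]; omega
  · have e1 : sc K T = ∑ D ∈ Φ, clauseMon ℚ D *
        (sc K (clean D (p D)) - sc K (clean D (q D))) + (sc K (clean ∅ r) + 1) := by
      simp only [T, sc_add, sc_sum, sc_neg, sc_mul, map_clauseMon, sc_C hKpos, clauseMon_empty,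
        one_mul]
      congr 1
      exact Finset.sum_congr rfl fun D _ => by ring
    have e2 : sc K (∑ j, ax ℤ j * t j) = ∑ j, dualAx ℚ j * sc K (t j) := by
      rw [sc_sum]
      simp only [sc_mul, map_ax]
    have e3 := congrArg (sc K) ht1
    rw [e1, e2] at e3
    have e4 : ∑ j, dualAx ℚ j * (sc K (posP (- t j)) - sc K (posP (t j))) =
        - ∑ j, dualAx ℚ j * sc K (t j) := by
      rw [← Finset.sum_neg_distrib]
      refine Finset.sum_congr rfl fun j _ => ?_
      rw [← sc_sub, posP_sub, sc_neg]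
      ring
    rw [e4, ← e3]
    simp

theorem succinct_of_sa (n : ℕ) (Φ : CNF n) (s : ℕ) (h : SA n Φ s) :
    ∃ s' : ℕ, s' ≤ s ∧ SuccinctSA n Φ s' := by
  obtain ⟨P, Q, P₁, Q₁, P₂, Q₂, R, ⟨h1, h2, h3, h4⟩, h5, rfl⟩ := h
  refine ⟨_, ?_, P, Q, R, ⟨h1, h4⟩, ?_, rfl⟩
  · omega
  · have : ∑ D ∈ Φ, clauseMon ℚ D * (P D - Q D) + R - (-1) =
        - (∑ j, boolAx ℚ j * (P₁ j - Q₁ j) + ∑ j, dualAx ℚ j * (P₂ j - Q₂ j)) := by
      rw [← h5]; ring
    rw [this]
    refine Ideal.neg_mem_iff _ |>.mpr (Ideal.add_mem _ ?_ ?_)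
    · exact Ideal.sum_mem _ fun j _ => Ideal.mul_mem_right _ _
        (Ideal.subset_span (Or.inl ⟨j, rfl⟩))
    · exact Ideal.sum_mem _ fun j _ => Ideal.mul_mem_right _ _
        (Ideal.subset_span (Or.inr ⟨j, rfl⟩))

end Pool.Agent.L5helper54.Static
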